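import Pool.Agent.H21.CV.Targets

/-!
Row TRF of the board cvz_modules (`MP_6e60ff_nt`): linear substitutions.
-/

set_option autoImplicit false

namespace Pool.Agent.H13.CV

open Finset MvPolynomial Pool.Agent.H31.RZ Pool.Agent.H21.CV

variable {m : ℕ}

/-- sum of the absolute values of the coefficients -/
noncomputable def nl (p : MvPolynomial (Fin m) ℤ) : ℤ := ∑ μ ∈ p.support, |p.coeff μ|

theorem nl_eq (p : MvPolynomial (Fin m) ℤ) (T : Finset (Fin m →₀ ℕ)) (hT : p.support ⊆ T) :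
    nl p = ∑ μ ∈ T, |p.coeff μ| := by
  unfold nl
  refine Finset.sum_subset hT fun μ _ hμ => ?_
  rw [MvPolynomial.notMem_support_iff.1 hμ, abs_zero]

theorem nl_nonneg (p : MvPolynomial (Fin m) ℤ) : 0 ≤ nl p :=
  Finset.sum_nonneg fun _ _ => abs_nonneg _

theorem coeff_le_nl (p : MvPolynomial (Fin m) ℤ) (μ : Fin m →₀ ℕ) : |p.coeff μ| ≤ nl p := by
  classical
  rw [nl_eq p (insert μ p.support) (Finset.subset_insert _ _)]
  exact Finset.single_le_sum (f := fun μ => |p.coeff μ|) (fun _ _ => abs_nonneg _)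
    (Finset.mem_insert_self _ _)

theorem nl_add (p q : MvPolynomial (Fin m) ℤ) : nl (p + q) ≤ nl p + nl q := by
  classical
  rw [nl_eq (p + q) (p.support ∪ q.support) MvPolynomial.support_add,
    nl_eq p (p.support ∪ q.support) Finset.subset_union_left,
    nl_eq q (p.support ∪ q.support) Finset.subset_union_right, ← Finset.sum_add_distrib]
  refine Finset.sum_le_sum fun μ _ => ?_
  rw [MvPolynomial.coeff_add]
  exact abs_add_le _ _

theorem nl_zero : nl (0 : MvPolynomial (Fin m) ℤ) = 0 := by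
  unfold nl
  rw [MvPolynomial.support_zero, Finset.sum_empty]

theorem nl_sum {ι : Type} (s : Finset ι) (f : ι → MvPolynomial (Fin m) ℤ) :
    nl (∑ i ∈ s, f i) ≤ ∑ i ∈ s, nl (f i) :=
  Finset.le_sum_of_subadditive nl nl_zero.le nl_add s f

theorem nl_monomial (μ : Fin m →₀ ℕ) (c : ℤ) : nl (monomial μ c) ≤ |c| := by
  classical
  rw [nl_eq _ {μ} MvPolynomial.support_monomial_subset, Finset.sum_singleton,
    MvPolynomial.coeff_monomial, if_pos rfl]

theorem nl_mul (p q : MvPolynomial (Fin m) ℤ) : nl (p * q) ≤ nl p * nl q := by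
  classical
  have h1 : p * q = ∑ μ ∈ p.support, ∑ ν ∈ q.support, monomial (μ + ν) (p.coeff μ * q.coeff ν) := by
    conv_lhs => rw [p.as_sum, q.as_sum, Finset.sum_mul_sum]
    refine Finset.sum_congr rfl fun μ _ => Finset.sum_congr rfl fun ν _ => ?_
    rw [MvPolynomial.monomial_mul]
  rw [h1]
  refine (nl_sum _ _).trans ?_
  unfold nl
  rw [Finset.sum_mul_sum]
  refine Finset.sum_le_sum fun μ _ => (nl_sum _ _).trans (Finset.sum_le_sum fun ν _ => ?_)
  rw [← abs_mul]
  exact nl_monomial _ _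

theorem nl_C (c : ℤ) : nl (C c : MvPolynomial (Fin m) ℤ) ≤ |c| := nl_monomial 0 c

theorem nl_one : nl (1 : MvPolynomial (Fin m) ℤ) ≤ 1 := by
  have h := nl_C (m := m) 1
  rwa [MvPolynomial.C_1, abs_one] at h

theorem nl_pow (p : MvPolynomial (Fin m) ℤ) (c : ℤ) (hc : nl p ≤ c) (k : ℕ) :
    nl (p ^ k) ≤ c ^ k := by
  have hc0 : 0 ≤ c := (nl_nonneg p).trans hc
  induction k with
  | zero =>
    rw [pow_zero, pow_zero]
    exact nl_one
  | succ k ih =>
    rw [pow_succ, pow_succ]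
    exact (nl_mul _ _).trans (mul_le_mul ih hc (nl_nonneg _) (pow_nonneg hc0 k))

theorem nl_prod {ι : Type} (s : Finset ι) (f : ι → MvPolynomial (Fin m) ℤ) (g : ι → ℤ)
    (h : ∀ i ∈ s, nl (f i) ≤ g i) : nl (∏ i ∈ s, f i) ≤ ∏ i ∈ s, g i := by
  classical
  induction s using Finset.induction_on with
  | empty =>
    rw [Finset.prod_empty, Finset.prod_empty]
    exact nl_one
  | insert a s ha ih =>
    rw [Finset.prod_insert ha, Finset.prod_insert ha]
    have h1 := h a (Finset.mem_insert_self a s)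
    exact (nl_mul _ _).trans (mul_le_mul h1 (ih fun i hi => h i (Finset.mem_insert_of_mem hi))
      (nl_nonneg _) ((nl_nonneg _).trans h1))

/-- the linear forms -/
theorem nl_lin (A : Matrix (Fin m) (Fin m) ℤ) (a : ℕ) (hA : ∀ i j, |A i j| ≤ a) (i : Fin m) :
    nl (∑ j, C (A i j) * X j : MvPolynomial (Fin m) ℤ) ≤ m * a := by
  refine (nl_sum _ _).trans ?_
  have h1 : ∀ j ∈ (Finset.univ : Finset (Fin m)),
      nl (C (A i j) * X j : MvPolynomial (Fin m) ℤ) ≤ a := by
    intro j _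
    rw [MvPolynomial.C_mul_X_eq_monomial]
    exact (nl_monomial _ _).trans (hA i j)
  refine (Finset.sum_le_sum h1).trans ?_
  rw [Finset.sum_const, Finset.card_univ, Fintype.card_fin, nsmul_eq_mul]

theorem trf_eval (A : Matrix (Fin m) (Fin m) ℤ) (f : MvPolynomial (Fin m) ℤ) (y : Fin m → ℤ) :
    eval y (trf A f) = eval (A.mulVec y) f := by
  unfold trf
  induction f using MvPolynomial.induction_on with
  | C c => simp
  | add p q hp hq => rw [map_add, map_add, map_add, hp, hq]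
  | mul_X p i hp =>
    rw [map_mul, map_mul, map_mul, hp, aeval_X, eval_X]
    congr 1
    simp [Matrix.mulVec, dotProduct]

theorem trf_hom {d : ℕ} (A : Matrix (Fin m) (Fin m) ℤ) (f : MvPolynomial (Fin m) ℤ)
    (hf : f.IsHomogeneous d) : (trf A f).IsHomogeneous d := by
  unfold trf
  have h := hf.aeval (fun i => ∑ j, C (A i j) * X j : Fin m → MvPolynomial (Fin m) ℤ)
    (n := 1) (fun i => IsHomogeneous.sum _ _ _ fun j _ => isHomogeneous_C_mul_X _ _)
  rwa [one_mul] at h

theorem trf_coeff (d : ℕ) (A : Matrix (Fin m) (Fin m) ℤ) (f : MvPolynomial (Fin m) ℤ) (a b : ℕ)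
    (hf : f.IsHomogeneous d) (hA : ∀ i j, |A i j| ≤ a) (hb : ∀ μ, |f.coeff μ| ≤ b)
    (μ : Fin m →₀ ℕ) : |(trf A f).coeff μ| ≤
      ((((Finset.univ : Finset (Fin m)).finsuppAntidiag d).card * m ^ d + 1 : ℕ) : ℤ) *
        (a : ℤ) ^ d * b := by
  have h1 : trf A f = ∑ ν ∈ f.support, C (f.coeff ν) *
      ∏ i, (∑ j, C (A i j) * X j : MvPolynomial (Fin m) ℤ) ^ ν i := by
    unfold trf
    rw [aeval_def, eval₂_eq']
    rfl
  have hdeg : ∀ ν ∈ f.support, ∑ i, ν i = d := by
    intro ν hν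
    by_contra hne
    have h2 : ν.degree ≠ d := by rwa [Finsupp.degree_eq_sum]
    exact MvPolynomial.mem_support_iff.1 hν (hf.coeff_eq_zero h2)
  have hterm : ∀ ν ∈ f.support, nl (C (f.coeff ν) *
      ∏ i, (∑ j, C (A i j) * X j : MvPolynomial (Fin m) ℤ) ^ ν i) ≤ b * (m * a) ^ d := by
    intro ν hν
    refine (nl_mul _ _).trans (mul_le_mul ((nl_C _).trans (hb ν)) ?_ (nl_nonneg _)
      (Int.natCast_nonneg b))
    refine (nl_prod _ _ (fun i => ((m : ℤ) * a) ^ ν i) fun i _ =>
      nl_pow _ _ (nl_lin A a hA i) _).trans ?_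
    rw [Finset.prod_pow_eq_pow_sum, hdeg ν hν]
  have hsup : f.support ⊆ (Finset.univ : Finset (Fin m)).finsuppAntidiag d := by
    intro ν hν
    rw [Finset.mem_finsuppAntidiag]
    exact ⟨hdeg ν hν, Finset.subset_univ _⟩
  have h2 : nl (trf A f) ≤ f.support.card * (b * (m * a) ^ d) := by
    rw [h1]
    refine (nl_sum _ _).trans ((Finset.sum_le_sum hterm).trans ?_)
    rw [Finset.sum_const, nsmul_eq_mul]
  refine (coeff_le_nl _ μ).trans (h2.trans ?_)
  have h3 : (f.support.card : ℤ) ≤ ((Finset.univ : Finset (Fin m)).finsuppAntidiag d).card := by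
    exact_mod_cast Finset.card_le_card hsup
  have h4 : (0 : ℤ) ≤ b * (m * a) ^ d := by positivity
  have h5 : (0 : ℤ) ≤ (a : ℤ) ^ d * b := by positivity
  have h6 := mul_le_mul_of_nonneg_right h3 h4
  push_cast
  rw [mul_pow] at h6 ⊢
  nlinarith

theorem adj_le (z : Matrix (Fin m) (Fin m) ℤ) (a : ℕ) (h : ∀ i j, |z i j| ≤ a) (i j : Fin m) :
    |z.adjugate i j| ≤ ((m.factorial : ℕ) : ℤ) * ((a : ℤ) + 1) ^ m := by
  classical
  rw [Matrix.adjugate_apply]
  have h1 := Matrix.det_le (A := z.updateRow j (Pi.single i 1)) (abv := AbsoluteValue.abs)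
    (x := (a : ℤ) + 1) (fun r s => by
      rw [AbsoluteValue.abs_apply, Matrix.updateRow_apply]
      split_ifs with hr
      · rw [Pi.single_apply]
        split_ifs
        · rw [abs_one]
          omega
        · rw [abs_zero]
          omega
      · have := h r s
        omega)
  rw [Fintype.card_fin, nsmul_eq_mul] at h1
  exact h1

theorem pf_TRF : T_TRF := by
  refine ⟨fun m A f y => trf_eval A f y, fun m d A f hf => trf_hom A f hf, fun m d =>
    ⟨((Finset.univ : Finset (Fin m)).finsuppAntidiag d).card * m ^ d + 1, by omega,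
      fun A f a b hf hA hb μ => trf_coeff d A f a b hf hA hb μ⟩,
    fun m => ⟨m.factorial, Nat.factorial_pos m, fun z a h i j => adj_le z a h i j⟩⟩

end Pool.Agent.H13.CV
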